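import Pool.Agent.Y497.HD.Main

/-!
# One continuous map which keeps the proportion `m / n` of the Hausdorff dimension of every set

For all positive `n` and `m` there is one continuous map `f : ℝⁿ → ℝᵐ` such that
`dim f(E) ≥ (m / n) dim E` for every set `E ⊆ ℝⁿ` (measurable or not) with `dim E > n - 1`, and
the factor `m / n` is the best possible one.  For `n = 2`, `m = 1` a single continuous real
function `f` on the plane has `dim f(E) ≥ (dim E) / 2` for all plane sets of dimension greater
than one; so `dim f(E) ≥ (1 + s) / 2 > s` for all `0 < s < 1` and all `E` with `dim E = 1 + s`, in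
ZFC.

Sketch.  The components of `f` are sums of smoothed binary digits of the coordinates with weights
slightly smaller than powers of `1 / 2`, distributed in turn over the `m` components.  The digit
of level `k` has to jump near the dyadic grid of level `k + 1`; it is made continuous in a strip of
width `2 ^ (-(k+1)^2)` by a staircase function, which is locally constant outside a closed set of
dimension zero (the closure of the range of a strictly increasing pure jump function).  Outside a
set of dimension at most `n - 1` the digits of all low levels are locally constant and the digits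
of all high levels are the true ones.  So, up to a set of dimension at most `n - 1`, the space is a
countable union of sets on which `f` is injective and its inverse satisfies a Hölder condition with
every exponent less than `m / n`.
-/

set_option autoImplicit false

namespace Pool.Agent.Results.MP_2d1133_lc.UniversalMap

open Set
open scoped ENNReal NNReal

/-- (1) For all `n, m ≥ 1` there is a continuous map `f : ℝⁿ → ℝᵐ` such that
`(m / n) dim E ≤ dim f(E)` for every `E ⊆ ℝⁿ` with `dim E > n - 1` (Hausdorff dimensions); and if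
any map `f : ℝⁿ → ℝᵐ` satisfies `c dim E ≤ dim f(E)` for all these sets then `c ≤ m / n`.

(2) There is a continuous `f : ℝ² → ℝ` such that `dim f(E) ≥ (dim E) / 2` for all `E` with
`dim E > 1`, and hence `dim f(E) > s` for all `0 < s < 1` and all `E` with `dim E = 1 + s`. -/
theorem result :
    (∀ n m : ℕ, 1 ≤ n → 1 ≤ m →
      (∃ f : EuclideanSpace ℝ (Fin n) → EuclideanSpace ℝ (Fin m), Continuous f ∧
        ∀ E : Set (EuclideanSpace ℝ (Fin n)), (n : ℝ≥0∞) - 1 < dimH E →
          (m / n : ℝ≥0∞) * dimH E ≤ dimH (f '' E)) ∧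
      ∀ (c : ℝ≥0∞) (f : EuclideanSpace ℝ (Fin n) → EuclideanSpace ℝ (Fin m)),
        (∀ E : Set (EuclideanSpace ℝ (Fin n)), (n : ℝ≥0∞) - 1 < dimH E →
          c * dimH E ≤ dimH (f '' E)) → c ≤ m / n) ∧
    (∃ f : EuclideanSpace ℝ (Fin 2) → ℝ, Continuous f ∧
      (∀ E : Set (EuclideanSpace ℝ (Fin 2)), 1 < dimH E → dimH E / 2 ≤ dimH (f '' E)) ∧
      ∀ s : ℝ, 0 < s → s < 1 → ∀ E : Set (EuclideanSpace ℝ (Fin 2)),
        dimH E = ENNReal.ofReal (1 + s) → ENNReal.ofReal s < dimH (f '' E)) := by
  have key : ∀ n m : ℕ, 1 ≤ n → 1 ≤ m →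
      ∃ f : EuclideanSpace ℝ (Fin n) → (Fin m → ℝ), Continuous f ∧
        ∀ E : Set (EuclideanSpace ℝ (Fin n)), (n : ℝ≥0∞) - 1 < dimH E →
          (m / n : ℝ≥0∞) * dimH E ≤ dimH (f '' E) := by
    intro n m hn hm
    let e := EuclideanSpace.equiv (Fin n) ℝ
    refine ⟨fun x => Pool.Agent.Y497.HD.FF hn m (e x),
      (Pool.Agent.Y497.HD.FF_cont hn m).comp e.continuous, fun E hE => ?_⟩
    have h1 : dimH (e '' E) = dimH E := e.dimH_image E
    have h2 := Pool.Agent.Y497.HD.main hn hm (e '' E) (by
      rw [h1]
      have h3 : ((n - 1 : ℕ) : ℝ≥0∞) = (n : ℝ≥0∞) - 1 := by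
        rw [ENNReal.natCast_sub, Nat.cast_one]
      rw [h3]
      exact hE)
    rw [h1, image_image] at h2
    exact h2
  refine ⟨fun n m hn hm => ⟨?_, fun c f hf => ?_⟩, ?_⟩
  · obtain ⟨f, hf1, hf2⟩ := key n m hn hm
    let e := EuclideanSpace.equiv (Fin m) ℝ
    refine ⟨fun x => e.symm (f x), e.symm.continuous.comp hf1, fun E hE => ?_⟩
    refine (hf2 E hE).trans (le_of_eq ?_)
    rw [← image_image (fun y => e.symm y) f]
    exact (e.symm.dimH_image (f '' E)).symm
  · have hn0 : (n : ℝ≥0∞) ≠ 0 := by
      have : n ≠ 0 := by omega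
      exact_mod_cast this
    have hu : dimH (univ : Set (EuclideanSpace ℝ (Fin n))) = n := by
      rw [Real.dimH_univ_eq_finrank, finrank_euclideanSpace_fin]
    have hv : dimH (univ : Set (EuclideanSpace ℝ (Fin m))) = m := by
      rw [Real.dimH_univ_eq_finrank, finrank_euclideanSpace_fin]
    have h1 := hf univ (by
      rw [hu]
      exact ENNReal.sub_lt_self (ENNReal.natCast_ne_top n) hn0 one_ne_zero)
    rw [hu] at h1
    rw [ENNReal.le_div_iff_mul_le (Or.inl hn0) (Or.inl (ENNReal.natCast_ne_top n))]
    exact h1.trans ((dimH_mono (subset_univ _)).trans hv.le)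
  · obtain ⟨f, hf1, hf2⟩ := key 2 1 (by norm_num) le_rfl
    have hmain : ∀ E : Set (EuclideanSpace ℝ (Fin 2)), 1 < dimH E →
        dimH E / 2 ≤ dimH ((fun x => f x 0) '' E) := by
      intro E hE
      have h1 := hf2 E (by
        have : ((2 : ℕ) : ℝ≥0∞) - 1 = 1 := by
          have h3 : ((2 : ℕ) : ℝ≥0∞) = 1 + 1 := by norm_num
          rw [h3]
          exact ENNReal.add_sub_cancel_right ENNReal.one_ne_top
        rw [this]
        exact hE)
      have h2 : ((1 : ℕ) / (2 : ℕ) : ℝ≥0∞) * dimH E = dimH E / 2 := by
        rw [Nat.cast_one, one_div, ENNReal.div_eq_inv_mul]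
        norm_num
      rw [h2] at h1
      refine h1.trans (le_of_eq ?_)
      have h3 : Isometry (fun y : Fin 1 → ℝ => y 0) := by
        refine Isometry.of_dist_eq fun y z => ?_
        rw [dist_pi_def]
        simp
      have h4 := h3.dimH_image (f '' E)
      rw [image_image] at h4
      exact h4.symm
    refine ⟨fun x => f x 0, (continuous_apply 0).comp hf1, hmain, fun s hs0 hs1 E hE => ?_⟩
    have h1 : 1 < dimH E := by
      rw [hE, ← ENNReal.ofReal_one]
      exact (ENNReal.ofReal_lt_ofReal_iff (by linarith)).2 (by linarith)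
    refine lt_of_lt_of_le ?_ (hmain E h1)
    have h2 : dimH E / 2 = ENNReal.ofReal ((1 + s) / 2) := by
      rw [hE, ENNReal.ofReal_div_of_pos (by norm_num)]
      norm_num
    rw [h2]
    exact (ENNReal.ofReal_lt_ofReal_iff (by linarith)).2 (by linarith)

end Pool.Agent.Results.MP_2d1133_lc.UniversalMap
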